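import Pool.Agent.Lib_helper92.RX.Cart
import Pool.Agent.WFT.Defs

/-!
# The ring `R(X)`: localization of `R[X]` at `m R[X]`
-/

set_option autoImplicit false

namespace Pool.Agent.RX

open Polynomial IsLocalRing

section

variable (R : Type*) [CommRing R] [IsLocalRing R]

/-- the ideal `m R[X]` -/
noncomputable abbrev mX : Ideal R[X] := (maximalIdeal R).map (C : R →+* R[X])

set_option linter.dupNamespace false in
/-- the ring `R(X)` -/
abbrev RX := Localization.AtPrime (mX R)

theorem algebraMap_RX : algebraMap R (RX R) = (algebraMap R[X] (RX R)).comp C := by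
  rw [IsScalarTower.algebraMap_eq R R[X] (RX R)]
  rfl

theorem mem_mX {f : R[X]} : f ∈ mX R ↔ ∀ i, f.coeff i ∈ maximalIdeal R := by
  rw [mX, Ideal.mem_map_C_iff]

/-- the variable -/
noncomputable def x : RX R := algebraMap R[X] (RX R) X

theorem aeval_x (f : R[X]) : aeval (x R) f = algebraMap R[X] (RX R) f := by
  have h : (aeval (x R) : R[X] →ₐ[R] RX R) = Algebra.algHom R R[X] (RX R) := by
    ext
    rw [aeval_X]; rfl
  rw [h]; rfl

theorem isUnit_aeval_iff (g : R[X]) : IsUnit (aeval (x R) g) ↔ ∃ i, g.coeff i ∉ maximalIdeal R := by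
  rw [aeval_x, IsLocalization.AtPrime.isUnit_to_map_iff (RX R) (mX R)]
  change g ∉ mX R ↔ _
  rw [mem_mX]
  push Not
  rfl

theorem exists_frac (y : RX R) :
    ∃ f g : R[X], IsUnit (aeval (x R) g) ∧ y * aeval (x R) g = aeval (x R) f := by
  obtain ⟨f, s, rfl⟩ := IsLocalization.exists_mk'_eq (mX R).primeCompl y
  refine ⟨f, s, ?_, ?_⟩
  · rw [aeval_x]
    exact IsLocalization.map_units _ s
  · rw [aeval_x, aeval_x, IsLocalization.mk'_spec]

instance : Module.Flat R (RX R) :=
  have : Module.Flat R[X] (RX R) := IsLocalization.flat _ (mX R).primeCompl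
  Module.Flat.trans R R[X] (RX R)

theorem map_maximalIdeal :
    (maximalIdeal R).map (algebraMap R (RX R)) = maximalIdeal (RX R) := by
  rw [algebraMap_RX, ← Ideal.map_map]
  exact Localization.AtPrime.map_eq_maximalIdeal

instance : IsLocalHom (algebraMap R (RX R)) := by
  refine ((IsLocalRing.local_hom_TFAE (algebraMap R (RX R))).out 2 0).1 ?_
  rw [map_maximalIdeal]

instance : Module.FaithfullyFlat R (RX R) := Module.FaithfullyFlat.of_flat_of_isLocalHom

theorem algebraMap_injective : Function.Injective (algebraMap R (RX R)) :=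
  FaithfulSMul.algebraMap_injective R (RX R)

instance [IsDomain R] : IsDomain (RX R) :=
  IsLocalization.isDomain_localization (Ideal.primeCompl_le_nonZeroDivisors _)

instance [IsDomain R] [IsIntegrallyClosed R] : IsIntegrallyClosed (RX R) :=
  isIntegrallyClosed_of_isLocalization (R := R[X]) _ (mX R).primeCompl
    (Ideal.primeCompl_le_nonZeroDivisors _)

instance [IsNoetherianRing R] : IsNoetherianRing (RX R) :=
  IsLocalization.isNoetherianRing (mX R).primeCompl (RX R) inferInstance

instance (p : ℕ) [CharP R p] : CharP (RX R) p := charP_of_injective_algebraMap' R p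

theorem ringKrullDim_RX [IsNoetherianRing R] : ringKrullDim (RX R) = ringKrullDim R := by
  rw [IsLocalization.AtPrime.ringKrullDim_eq_height (mX R) (RX R), mX, Polynomial.height_map_C,
    IsLocalRing.maximalIdeal_height_eq_ringKrullDim]

instance : Infinite (ResidueField (RX R)) := by
  have hinj : Function.Injective (fun n : ℕ => residue (RX R) (x R ^ n)) := by
    intro a b hab
    by_contra hne
    wlog hlt : a < b generalizing a b
    · exact this hab.symm (Ne.symm hne) (by omega)
    have h1 : x R ^ a - x R ^ b ∈ maximalIdeal (RX R) := by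
      rw [← residue_eq_zero_iff, map_sub, sub_eq_zero]
      exact hab
    have h2 : ¬ IsUnit (aeval (x R) (X ^ a - X ^ b : R[X])) := by
      rw [← mem_nonunits_iff, ← mem_maximalIdeal, map_sub, map_pow, map_pow, aeval_X]
      exact h1
    rw [isUnit_aeval_iff] at h2
    push Not at h2
    have h3 := h2 a
    rw [coeff_sub, coeff_X_pow, coeff_X_pow, if_pos rfl, if_neg hlt.ne, sub_zero] at h3
    exact (mem_maximalIdeal _).1 h3 isUnit_one
  exact Infinite.of_injective _ hinj

theorem comap_pow (n : ℕ) (r : R) (h : algebraMap R (RX R) r ∈ maximalIdeal (RX R) ^ n) :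
    r ∈ maximalIdeal R ^ n := by
  rw [← map_maximalIdeal, ← Ideal.map_pow] at h
  rw [← Ideal.comap_map_eq_self_of_faithfullyFlat (B := RX R) (maximalIdeal R ^ n)]
  exact h

open H35.SFR in
/-- Cartier maps and dual basis identities extend from `R` to `R(X)` -/
theorem cartExt (p : ℕ) [hp : Fact p.Prime] [CharP R p] : CartExt p (algebraMap R (RX R)) := by
  rw [algebraMap_RX]
  exact (cartExt_C p).comp (cartExt_loc p hp.out.pos (mX R).primeCompl)

open H35.SFR in
/-- the explicit extension of a Cartier map -/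
theorem exists_cart (p : ℕ) [hp : Fact p.Prime] [CharP R p] (e : ℕ) (φ : R →+ R)
    (hφ : IsCartier (p ^ e) φ) :
    ∃ ψ : RX R →+ RX R, IsCartier (p ^ e) ψ ∧
      (∀ r, ψ (algebraMap R (RX R) r) = algebraMap R (RX R) (φ r)) ∧
      ∀ r i, ψ (algebraMap R (RX R) r * x R ^ i) =
        if p ^ e ∣ i then algebraMap R (RX R) (φ r) * x R ^ (i / p ^ e) else 0 := by
  have hq : 0 < p ^ e := pow_pos hp.out.pos e
  obtain ⟨ψ, hψ, hψ'⟩ := (cartExt_loc (R := R[X]) (S := RX R) p hp.out.pos
    (mX R).primeCompl).ext e _ (polyMap_cartier hq hq hφ)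
  have key : ∀ r i, ψ (algebraMap R (RX R) r * x R ^ i) =
        if p ^ e ∣ i then algebraMap R (RX R) (φ r) * x R ^ (i / p ^ e) else 0 := by
    intro r i
    rw [algebraMap_RX, RingHom.comp_apply, x, ← map_pow, ← map_mul, hψ', polyMap_C_mul_X_pow]
    split_ifs with h
    · rw [map_mul, map_pow]; rfl
    · rw [map_zero]
  refine ⟨ψ, hψ, fun r => ?_, key⟩
  have := key r 0
  simpa using this

open H35.SFR in
/-- `R(X)` is F-finite -/
theorem ffin' (p : ℕ) [hp : Fact p.Prime] [CharP R p] (h : FFin p R) : FFin p (RX R) :=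
  (ffin_poly p h).localization hp.out.pos (mX R).primeCompl

end

/-! ### the other form of F-finiteness -/

theorem finite_iff {A B : Type*} [CommRing A] [CommRing B] (f : A →+* B) :
    f.Finite ↔ ∃ (n : ℕ) (g : Fin n → B), ∀ b, ∃ a : Fin n → A, b = ∑ i, f (a i) * g i := by
  algebraize [f]
  constructor
  · intro h
    have hfin : Module.Finite A B := h
    obtain ⟨n, g, hg⟩ := Module.Finite.exists_fin (R := A) (M := B)
    refine ⟨n, g, fun r => ?_⟩
    have hr : r ∈ Submodule.span A (Set.range g) := hg ▸ Submodule.mem_top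
    rw [Submodule.mem_span_range_iff_exists_fun] at hr
    obtain ⟨a, ha⟩ := hr
    refine ⟨a, ?_⟩
    rw [← ha]
    exact Finset.sum_congr rfl fun i _ => by rw [Algebra.smul_def]; rfl
  · rintro ⟨n, g, hg⟩
    have : Module.Finite A B := by
      classical
      refine ⟨⟨Finset.univ.image g, ?_⟩⟩
      rw [eq_top_iff]
      intro b _
      obtain ⟨a, ha⟩ := hg b
      rw [ha]
      refine Submodule.sum_mem _ fun i _ => ?_
      have : f (a i) * g i = a i • g i := by rw [Algebra.smul_def]; rfl
      rw [this]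
      refine Submodule.smul_mem _ _ (Submodule.subset_span ?_)
      simp
    exact this

theorem frobenius_finite_iff (R : Type*) [CommRing R] (p : ℕ) [ExpChar R p] :
    (frobenius R p).Finite ↔ H35.SFR.FFin p R := finite_iff (frobenius R p)

/-- `R(X)` is F-finite -/
theorem ffin (R : Type*) [CommRing R] [IsLocalRing R] (p : ℕ) [hp : Fact p.Prime] [CharP R p]
    (h : WFT.FFin R p) : WFT.FFin (RX R) p :=
  (frobenius_finite_iff (RX R) p).2 (ffin' R p ((frobenius_finite_iff R p).1 h))

/-- the statement of `WFT.StmtRu` (with Cartier maps of level `p ^ e`) -/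
theorem stmtRu (p : ℕ) [Fact p.Prime] (R : Type*) [CommRing R] [IsDomain R] [IsNoetherianRing R]
    [IsLocalRing R] [CharP R p] (hF : WFT.FFin R p) :
      Module.Flat R (RX R) ∧ IsLocalHom (algebraMap R (RX R)) ∧
      (maximalIdeal R).map (algebraMap R (RX R)) = maximalIdeal (RX R) ∧
      Infinite (ResidueField (RX R)) ∧ ringKrullDim (RX R) = ringKrullDim R ∧
      WFT.FFin (RX R) p ∧
      (∀ (e : ℕ) (φ : R →+ R), WFT.IsCartier (p ^ e) φ → ∃ φ₁ : RX R →+ RX R,
        WFT.IsCartier (p ^ e) φ₁ ∧ ∀ r, φ₁ (algebraMap R (RX R) r) = algebraMap R (RX R) (φ r)) ∧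
      (∀ y : RX R, ∃ f g : R[X], IsUnit (aeval (x R) g) ∧ y * aeval (x R) g = aeval (x R) f) ∧
      (∀ g : R[X], IsUnit (aeval (x R) g) ↔ ∃ i, g.coeff i ∉ maximalIdeal R) :=
  ⟨inferInstance, inferInstance, map_maximalIdeal R, inferInstance, ringKrullDim_RX R, ffin R p hF,
    (cartExt R p).ext, exists_frac R, isUnit_aeval_iff R⟩

/-- splittings extend -/
theorem hasSplit (R : Type*) [CommRing R] [IsLocalRing R] (p : ℕ) [Fact p.Prime] [CharP R p]
    (e N : ℕ) (h : WFT.HasSplit R (p ^ e) N) : WFT.HasSplit (RX R) (p ^ e) N := by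
  obtain ⟨f, hf, φ, hφ, h1⟩ := h
  obtain ⟨ψ, hψ, hψ'⟩ := (cartExt R p).ext e φ hφ
  refine ⟨algebraMap R (RX R) f, ?_, ψ, hψ, ?_⟩
  · rw [← map_maximalIdeal, ← Ideal.map_pow]
    exact Ideal.mem_map_of_mem _ hf
  · rw [hψ', h1, map_one]

theorem big (R : Type*) [CommRing R] [IsLocalRing R] (p d : ℕ) [Fact p.Prime] [CharP R p]
    (h : WFT.Big R p d) : WFT.Big (RX R) p d := by
  intro C
  obtain ⟨e, N, h1, h2⟩ := h C
  exact ⟨e, N, h1, hasSplit R p e N h2⟩

end Pool.Agent.RX
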