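import Pool.Agent.Lib_helper35.SFR.Exist

/-!
# Extension of Cartier maps to polynomial rings and to localizations
-/

set_option autoImplicit false

namespace Pool.Agent.RX

open Polynomial H35.SFR

variable {R : Type*} [CommRing R]

/-! ### polynomial rings -/

/-- `∑ r_j X^j ↦ ∑_k φ (r_{k q + l}) X^k` -/
noncomputable def polyFun (q : ℕ) (l : ℕ) (φ : R →+ R) (f : R[X]) : R[X] :=
  ∑ n ∈ Finset.range (f.natDegree + 1), monomial n (φ (f.coeff (n * q + l)))

theorem coeff_polyFun {q : ℕ} (hq : 0 < q) (l : ℕ) (φ : R →+ R) (f : R[X]) (n : ℕ) :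
    (polyFun q l φ f).coeff n = φ (f.coeff (n * q + l)) := by
  unfold polyFun
  simp only [finsetSum_coeff, coeff_monomial]
  rw [Finset.sum_ite_eq' (Finset.range (f.natDegree + 1)) n]
  split_ifs with h
  · rfl
  · rw [Finset.mem_range, not_lt] at h
    have h1 : f.natDegree < n * q + l := by nlinarith
    rw [coeff_eq_zero_of_natDegree_lt h1, map_zero]

/-- the additive map `∑ r_j X^j ↦ ∑_k φ (r_{k q + l}) X^k` -/
noncomputable def polyMap {q : ℕ} (hq : 0 < q) (l : ℕ) (φ : R →+ R) : R[X] →+ R[X] where
  toFun := polyFun q l φ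
  map_zero' := by
    ext n; rw [coeff_polyFun hq, coeff_zero, coeff_zero, map_zero]
  map_add' f g := by
    ext n
    rw [coeff_add, coeff_polyFun hq, coeff_polyFun hq, coeff_polyFun hq, coeff_add, map_add]

theorem coeff_polyMap {q : ℕ} (hq : 0 < q) (l : ℕ) (φ : R →+ R) (f : R[X]) (n : ℕ) :
    (polyMap hq l φ f).coeff n = φ (f.coeff (n * q + l)) := coeff_polyFun hq l φ f n

theorem polyMap_C {q : ℕ} (hq : 0 < q) (φ : R →+ R) (r : R) :
    polyMap hq 0 φ (C r) = C (φ r) := by
  ext n
  rw [coeff_polyMap, coeff_C, coeff_C]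
  rcases Nat.eq_zero_or_pos n with rfl | hn
  · simp
  · rw [if_neg (by positivity), if_neg hn.ne', map_zero]

theorem polyMap_C_mul_X_pow {q : ℕ} (hq : 0 < q) (φ : R →+ R) (r : R) (i : ℕ) :
    polyMap hq 0 φ (C r * X ^ i) = if q ∣ i then C (φ r) * X ^ (i / q) else 0 := by
  ext n
  rw [coeff_polyMap, coeff_C_mul_X_pow, add_zero]
  split_ifs with h1 h2 h2
  · rw [coeff_C_mul_X_pow, if_pos]
    rw [← h1, Nat.mul_div_cancel _ hq]
  · exact absurd ⟨n, by rw [← h1, mul_comm]⟩ h2
  · rw [coeff_C_mul_X_pow, if_neg, map_zero]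
    intro h3
    apply h1
    rw [h3, Nat.div_mul_cancel h2]
  · rw [map_zero, coeff_zero]

theorem polyMap_cartier {p : ℕ} [Fact p.Prime] [CharP R p] {e : ℕ} (hq : 0 < p ^ e) {l : ℕ}
    (hl : l < p ^ e) {φ : R →+ R} (h : IsCartier (p ^ e) φ) :
    IsCartier (p ^ e) (polyMap hq l φ) := by
  intro g z
  induction g using Polynomial.induction_on' with
  | add a b ha hb => rw [add_pow_char_pow, add_mul, map_add, ha, hb, add_mul]
  | monomial i a =>
    induction z using Polynomial.induction_on' with
    | add a b ha hb => rw [mul_add, map_add, ha, hb, map_add, mul_add]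
    | monomial j b =>
      rw [monomial_pow, monomial_mul_monomial]
      ext n
      rw [coeff_polyMap, coeff_monomial, ← C_mul_X_pow_eq_monomial, mul_comm (C a), mul_assoc,
        coeff_X_pow_mul', coeff_C_mul, coeff_polyMap, coeff_monomial]
      set q := p ^ e with hqd
      by_cases hin : i ≤ n
      · rw [if_pos hin]
        by_cases h1 : i * q + j = n * q + l
        · rw [if_pos h1, if_pos, h]
          rw [Nat.sub_mul]
          have := Nat.mul_le_mul_right q hin
          omega
        · rw [if_neg h1, if_neg, map_zero, mul_zero]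
          intro h2
          apply h1
          rw [Nat.sub_mul] at h2
          have := Nat.mul_le_mul_right q hin
          omega
      · rw [if_neg hin, if_neg, map_zero]
        intro h1
        push Not at hin
        have : (n + 1) * q ≤ i * q := Nat.mul_le_mul_right q hin
        rw [add_mul, one_mul] at this
        omega

/-- Cartier maps and dual basis identities extend to `R[X]` -/
theorem cartExt_C (p : ℕ) [hp : Fact p.Prime] [CharP R p] : CartExt p (C : R →+* R[X]) where
  ext e φ hφ := by
    have hq : 0 < p ^ e := pow_pos hp.out.pos e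
    exact ⟨polyMap hq 0 φ, polyMap_cartier hq hq hφ, fun r => polyMap_C hq φ r⟩
  db c hc := by
    obtain ⟨n, b, π, hπ, hid⟩ := hc
    have hpos : 0 < p := hp.out.pos
    have key : ∀ f : R[X], C c ^ p * f =
        ∑ x : Fin n × Fin p, polyMap hpos x.2 (π x.1) f ^ p * (C (b x.1) * X ^ (x.2 : ℕ)) := by
      intro f
      induction f using Polynomial.induction_on' with
      | add f g hf hg =>
        rw [mul_add, hf, hg, ← Finset.sum_add_distrib]
        refine Finset.sum_congr rfl fun x _ => ?_
        rw [map_add, add_pow_char, add_mul]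
      | monomial j r =>
        have h1 : ∀ x : Fin n × Fin p, polyMap hpos x.2 (π x.1) (monomial j r) =
            if j % p = x.2 then monomial (j / p) (π x.1 r) else 0 := by
          intro x
          ext m
          rw [coeff_polyMap, coeff_monomial]
          have hx := x.2.2
          split_ifs with h1 h2 h2
          · rw [coeff_monomial, if_pos]
            rw [h1, mul_comm, Nat.mul_add_div hpos, Nat.div_eq_of_lt hx, add_zero]
          · exfalso
            apply h2
            rw [h1, Nat.mul_add_mod', Nat.mod_eq_of_lt hx]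
          · rw [coeff_monomial, if_neg, map_zero]
            intro h3
            apply h1
            rw [← h3, ← h2, Nat.div_add_mod' ]
          · rw [map_zero, coeff_zero]
        simp only [h1]
        rw [Fintype.sum_prod_type]
        have h2 : ∀ i : Fin n, ∑ l : Fin p,
            (if j % p = (l : ℕ) then monomial (j / p) (π i r) else 0) ^ p * (C (b i) * X ^ (l : ℕ)) =
            monomial j (π i r ^ p * b i) := by
          intro i
          rw [Finset.sum_eq_single (⟨j % p, Nat.mod_lt _ hpos⟩ : Fin p)]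
          · rw [if_pos rfl, monomial_pow, C_mul_X_pow_eq_monomial, monomial_mul_monomial,
              Nat.div_add_mod']
          · intro l _ hl
            rw [if_neg, zero_pow hpos.ne', zero_mul]
            intro h; exact hl (Fin.ext h.symm)
          · intro h; exact absurd (Finset.mem_univ _) h
        simp only [h2]
        rw [← map_sum, ← hid, ← C_pow, C_mul_monomial]
    let eq := Fintype.equivFin (Fin n × Fin p)
    refine ⟨Fintype.card (Fin n × Fin p), fun i => C (b (eq.symm i).1) * X ^ ((eq.symm i).2 : ℕ),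
      fun i => polyMap hpos (eq.symm i).2 (π (eq.symm i).1), fun i => ?_, fun f => ?_⟩
    · have := polyMap_cartier (p := p) (e := 1) (l := (eq.symm i).2) (by rwa [pow_one])
        (by rw [pow_one]; exact (eq.symm i).2.2) (φ := π (eq.symm i).1)
        (by rw [pow_one]; exact hπ _)
      simp only [pow_one] at this
      exact this
    · rw [key]
      exact (Equiv.sum_comp eq.symm (fun x : Fin n × Fin p =>
        polyMap hpos x.2 (π x.1) f ^ p * (C (b x.1) * X ^ (x.2 : ℕ)))).symm

theorem ffin_poly (p : ℕ) [hp : Fact p.Prime] [CharP R p] (h : FFin p R) : FFin p R[X] := by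
  obtain ⟨n, g, hg⟩ := h
  have hpos : 0 < p := hp.out.pos
  have key : ∀ f : R[X], ∃ a : Fin n × Fin p → R[X], f =
      ∑ x : Fin n × Fin p, a x ^ p * (C (g x.1) * X ^ (x.2 : ℕ)) := by
    intro f
    induction f using Polynomial.induction_on' with
    | add f f' hf hf' =>
      obtain ⟨a, ha⟩ := hf
      obtain ⟨a', ha'⟩ := hf'
      refine ⟨a + a', ?_⟩
      rw [ha, ha', ← Finset.sum_add_distrib]
      refine Finset.sum_congr rfl fun x _ => ?_
      rw [Pi.add_apply, add_pow_char, add_mul]
    | monomial j r =>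
      obtain ⟨a, ha⟩ := hg r
      refine ⟨fun x => if j % p = (x.2 : ℕ) then monomial (j / p) (a x.1) else 0, ?_⟩
      rw [Fintype.sum_prod_type]
      have h2 : ∀ i : Fin n, ∑ l : Fin p,
          (if j % p = (l : ℕ) then monomial (j / p) (a i) else 0) ^ p * (C (g i) * X ^ (l : ℕ)) =
          monomial j (a i ^ p * g i) := by
        intro i
        rw [Finset.sum_eq_single (⟨j % p, Nat.mod_lt _ hpos⟩ : Fin p)]
        · rw [if_pos rfl, monomial_pow, C_mul_X_pow_eq_monomial, monomial_mul_monomial,
            Nat.div_add_mod']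
        · intro l _ hl
          rw [if_neg, zero_pow hpos.ne', zero_mul]
          intro h; exact hl (Fin.ext h.symm)
        · intro h; exact absurd (Finset.mem_univ _) h
      simp only [h2]
      rw [← map_sum, ← ha]
  let eq := Fintype.equivFin (Fin n × Fin p)
  refine ⟨Fintype.card (Fin n × Fin p), fun i => C (g (eq.symm i).1) * X ^ ((eq.symm i).2 : ℕ),
    fun f => ?_⟩
  obtain ⟨a, ha⟩ := key f
  refine ⟨fun i => a (eq.symm i), ?_⟩
  rw [ha]
  exact (Equiv.sum_comp eq.symm (fun x : Fin n × Fin p =>
    a x ^ p * (C (g x.1) * X ^ (x.2 : ℕ)))).symm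

/-! ### localizations -/

section Loc

variable {S : Type*} [CommRing S] [Algebra R S]

theorem mk'_mul_pow {q : ℕ} (hq : 0 < q) {M : Submonoid R} [IsLocalization M S] (r : R) (s : M) :
    IsLocalization.mk' S r s = IsLocalization.mk' S (r * (s : R) ^ (q - 1)) (s ^ q) := by
  rw [IsLocalization.mk'_eq_iff_eq]
  congr 1
  obtain ⟨k, rfl⟩ : ∃ k, q = k + 1 := ⟨q - 1, by omega⟩
  simp only [Nat.add_sub_cancel, SubmonoidClass.coe_pow]
  ring

/-- extension of a Cartier map to a localization -/
theorem exists_loc {q : ℕ} (hq : 0 < q) (M : Submonoid R) [IsLocalization M S] {φ : R →+ R}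
    (h : IsCartier q φ) :
    ∃ ψ : S →+ S, IsCartier q ψ ∧ ∀ (r : R) (s : M), ψ (IsLocalization.mk' S r s) =
      IsLocalization.mk' S (φ (r * (s : R) ^ (q - 1))) s := by
  obtain ⟨k, rfl⟩ : ∃ k, q = k + 1 := ⟨q - 1, by omega⟩
  simp only [Nat.add_sub_cancel]
  -- well defined
  have hwd : ∀ (r : R) (s : M) (r' : R) (s' : M),
      IsLocalization.mk' S r s = IsLocalization.mk' S r' s' →
      IsLocalization.mk' S (φ (r * (s : R) ^ k)) s =
        IsLocalization.mk' S (φ (r' * (s' : R) ^ k)) s' := by
    intro r s r' s' hrs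
    rw [IsLocalization.mk'_eq_iff_eq, IsLocalization.eq_iff_exists M S] at hrs ⊢
    obtain ⟨c, hc⟩ := hrs
    refine ⟨c, ?_⟩
    have e1 : (c : R) * (s' * φ (r * (s : R) ^ k)) =
        φ ((c * s') ^ (k + 1) * (r * (s : R) ^ k)) := by rw [h]; ring
    have e2 : (c : R) * (s * φ (r' * (s' : R) ^ k)) =
        φ ((c * s) ^ (k + 1) * (r' * (s' : R) ^ k)) := by rw [h]; ring
    rw [e1, e2]
    congr 1
    have e3 : ((c : R) * s') ^ (k + 1) * (r * (s : R) ^ k) =
      c ^ k * s' ^ k * s ^ k * (c * (s' * r)) := by ring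
    rw [e3, hc]; ring
  let F : S → S := fun x => IsLocalization.mk' S
    (φ ((IsLocalization.sec M x).1 * ((IsLocalization.sec M x).2 : R) ^ k)) (IsLocalization.sec M x).2
  have hF : ∀ (r : R) (s : M), F (IsLocalization.mk' S r s) =
      IsLocalization.mk' S (φ (r * (s : R) ^ k)) s := by
    intro r s
    apply hwd
    rw [IsLocalization.mk'_sec]
  refine ⟨{ toFun := F, map_zero' := ?_, map_add' := ?_ }, ?_, fun r s => hF r s⟩
  · have := hF 0 1
    rw [IsLocalization.mk'_zero] at this
    rw [this, zero_mul, map_zero, IsLocalization.mk'_zero]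
  · intro x y
    obtain ⟨r, s, rfl⟩ := IsLocalization.exists_mk'_eq M x
    obtain ⟨r', s', rfl⟩ := IsLocalization.exists_mk'_eq M y
    rw [← IsLocalization.mk'_add, hF, hF, hF, ← IsLocalization.mk'_add]
    congr 1
    rw [mul_comm (φ _) (s' : R), mul_comm (φ (r' * _)) (s : R), ← h, ← h, ← map_add]
    congr 1
    rw [Submonoid.coe_mul]
    ring
  · intro x y
    obtain ⟨r, s, rfl⟩ := IsLocalization.exists_mk'_eq M x
    obtain ⟨r', s', rfl⟩ := IsLocalization.exists_mk'_eq M y
    rw [← IsLocalization.mk'_pow, ← IsLocalization.mk'_mul]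
    change F _ = _ * F _
    rw [hF, hF, ← IsLocalization.mk'_mul]
    rw [IsLocalization.mk'_eq_iff_eq]
    congr 1
    have e1 : r ^ (k + 1) * r' * (((s ^ (k + 1) * s' : M) : R)) ^ k =
        (r * (s : R) ^ k) ^ (k + 1) * (r' * (s' : R) ^ k) := by
      simp only [Submonoid.coe_mul, SubmonoidClass.coe_pow]
      ring
    rw [e1, h]
    simp only [Submonoid.coe_mul, SubmonoidClass.coe_pow]
    ring

theorem cartExt_loc (p : ℕ) (hp : 0 < p) (M : Submonoid R) [IsLocalization M S] :
    CartExt p (algebraMap R S) where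
  ext e φ hφ := by
    obtain ⟨ψ, hψ, hψ'⟩ := exists_loc (S := S) (pow_pos hp e) M hφ
    refine ⟨ψ, hψ, fun r => ?_⟩
    have := hψ' r 1
    rw [IsLocalization.mk'_one, Submonoid.coe_one, one_pow, mul_one, IsLocalization.mk'_one] at this
    exact this
  db c hc := by
    obtain ⟨n, b, π, hπ, hid⟩ := hc
    choose ψ hψ hψ' using fun i => exists_loc (S := S) hp M (hπ i)
    refine ⟨n, fun i => algebraMap R S (b i), ψ, hψ, fun z => ?_⟩
    obtain ⟨r, s, rfl⟩ := IsLocalization.exists_mk'_eq M z
    simp only [hψ']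
    rw [mk'_mul_pow hp r s]
    have e1 : ∀ i, IsLocalization.mk' S (π i (r * (s : R) ^ (p - 1))) s ^ p * algebraMap R S (b i) =
        IsLocalization.mk' S 1 (s ^ p) * algebraMap R S (π i (r * (s : R) ^ (p - 1)) ^ p * b i) := by
      intro i
      rw [← IsLocalization.mk'_pow, IsLocalization.mk'_eq_mul_mk'_one,
        map_mul (algebraMap R S) (π i (r * (s : R) ^ (p - 1)) ^ p)]
      ring
    simp only [e1]
    rw [← Finset.mul_sum, ← map_sum, ← hid, IsLocalization.mk'_eq_mul_mk'_one,
      map_mul (algebraMap R S) (c ^ p), map_pow (algebraMap R S) c]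
    ring

end Loc

end Pool.Agent.RX
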